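import Mathlib

/-!
# MP_9b093e_co: the ratio of the upper broadcast domination number to the upper domination number
is unbounded over connected graphs

For `m ≥ 2` let `G` have vertices `x (i, t)` (`i < m`, `0 ≤ t ≤ m`) and `w t` (`t < m`), where every layer
`{x (i, t) : i < m}` is a clique, `x (i, t)` and `x (i, t + 1)` are adjacent, and `w t` is adjacent to all of
layer `t + 1`. Then `Γ_b(G) ≥ m * m` (give every vertex of the last layer the value `m`) and `Γ(G) ≤ 2 m`.
-/

set_option autoImplicit false

namespace Pool.Agent.Results.MP_9b093e_co.RatioUnbounded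

section Definitions

variable {V : Type} [Fintype V] [DecidableEq V]

/-- The eccentricity of `v`. -/
noncomputable def ecc (G : SimpleGraph V) (v : V) : ℕ := Finset.univ.sup fun u => G.dist v u

/-- `f` is a broadcast: `f v ≤ e(v)` for all `v` (hence also `f v ≤ diam`). -/
def IsBroadcast (G : SimpleGraph V) (f : V → ℕ) : Prop := ∀ v, f v ≤ ecc G v

/-- `f` is dominating: every `u` is within distance `f v` of some `v` with `f v ≥ 1`. -/
def Dominating (G : SimpleGraph V) (f : V → ℕ) : Prop := ∀ u, ∃ v, 1 ≤ f v ∧ G.dist u v ≤ f v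

/-- `f` is a minimal dominating broadcast: no broadcast `g ≤ f`, `g ≠ f`, is dominating. -/
def MinimalDominating (G : SimpleGraph V) (f : V → ℕ) : Prop :=
  IsBroadcast G f ∧ Dominating G f ∧
    ∀ g : V → ℕ, IsBroadcast G g → Dominating G g → (∀ v, g v ≤ f v) → g = f

/-- The upper broadcast domination number `Γ_b(G)`: the largest cost of a minimal dominating broadcast. -/
noncomputable def upperBroadcast (G : SimpleGraph V) : ℕ :=
  sSup {c : ℕ | ∃ f : V → ℕ, MinimalDominating G f ∧ ∑ v, f v = c}

/-- `S` is a dominating set. -/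
def DominatingSet (G : SimpleGraph V) (S : Finset V) : Prop := ∀ u, ∃ s ∈ S, u = s ∨ G.Adj u s

/-- The upper domination number `Γ(G)`: the largest cardinality of a dominating set none of whose proper
subsets is dominating. -/
noncomputable def upperDomination (G : SimpleGraph V) : ℕ :=
  sSup {c : ℕ | ∃ S : Finset V, DominatingSet G S ∧ (∀ T, T ⊂ S → ¬ DominatingSet G T) ∧ S.card = c}

end Definitions

/-- Vertices of the example. -/
abbrev Vert (m : ℕ) : Type := (Fin m × Fin (m + 1)) ⊕ Fin m

/-- Adjacency of the example. -/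
def adj {m : ℕ} : Vert m → Vert m → Prop
  | .inl (i, t), .inl (j, s) => (i ≠ j ∧ t = s) ∨ (i = j ∧ (t.val + 1 = s.val ∨ s.val + 1 = t.val))
  | .inl (_, t), .inr s => t.val = s.val + 1
  | .inr s, .inl (_, t) => t.val = s.val + 1
  | .inr _, .inr _ => False

/-- The example. -/
def G (m : ℕ) : SimpleGraph (Vert m) where
  Adj := adj
  symm := ⟨by
    rintro (⟨i, t⟩ | s) (⟨j, s'⟩ | s') h
    · simp only [adj] at h ⊢
      rcases h with ⟨h1, h2⟩ | ⟨h1, h2⟩
      · exact Or.inl ⟨h1.symm, h2.symm⟩
      · exact Or.inr ⟨h1.symm, h2.symm⟩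
    · exact h
    · exact h
    · exact h⟩
  loopless := ⟨by
    rintro (⟨i, t⟩ | s) h
    · simp only [adj] at h
      rcases h with ⟨h1, _⟩ | ⟨_, h2⟩
      · exact h1 rfl
      · omega
    · exact h⟩

theorem lipschitz {V : Type} {G : SimpleGraph V} (hG : G.Connected) (φ : V → ℕ)
    (h : ∀ u v, G.Adj u v → φ v ≤ φ u + 1) (u v : V) : φ v ≤ φ u + G.dist u v := by
  have key : ∀ {a b : V} (p : G.Walk a b), φ b ≤ φ a + p.length := by
    intro a b p
    induction p with
    | nil => simp
    | cons hadj p ih =>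
      have := h _ _ hadj
      rw [SimpleGraph.Walk.length_cons]
      omega
  obtain ⟨p, hp⟩ := hG.exists_walk_length_eq_dist u v
  rw [← hp]
  exact key p

theorem reach_column {m : ℕ} (i : Fin m) (t : ℕ) (ht : t < m + 1) :
    (G m).Reachable (.inl (i, ⟨0, by omega⟩)) (.inl (i, ⟨t, ht⟩)) := by
  induction t with
  | zero => exact SimpleGraph.Reachable.refl _
  | succ t ih =>
    refine (ih (by omega)).trans (SimpleGraph.Adj.reachable ?_)
    exact Or.inr ⟨rfl, Or.inl rfl⟩

theorem connected {m : ℕ} (hm : 2 ≤ m) : (G m).Connected := by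
  have h0 : ∀ v, (G m).Reachable (.inl (⟨0, by omega⟩, ⟨0, by omega⟩)) v := by
    have hx : ∀ (i : Fin m) (t : Fin (m + 1)),
        (G m).Reachable (.inl (⟨0, by omega⟩, ⟨0, by omega⟩)) (.inl (i, t)) := by
      intro i t
      refine SimpleGraph.Reachable.trans ?_ (reach_column i t.val t.isLt)
      by_cases hi : (⟨0, by omega⟩ : Fin m) = i
      · rw [hi]
      · exact SimpleGraph.Adj.reachable (Or.inl ⟨hi, rfl⟩)
    rintro (⟨i, t⟩ | s)
    · exact hx i t
    · refine (hx ⟨0, by omega⟩ s.succ).trans (SimpleGraph.Adj.reachable ?_)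
      change (s.succ : Fin (m + 1)).val = s.val + 1
      simp
  have : Nonempty (Vert m) := ⟨.inl (⟨0, by omega⟩, ⟨0, by omega⟩)⟩
  exact ⟨fun u v => (h0 u).symm.trans (h0 v)⟩

/-- The broadcasting vertices. -/
def top {m : ℕ} (i : Fin m) : Vert m := .inl (i, Fin.last m)

/-- The broadcast of cost `m * m`. -/
def f (m : ℕ) : Vert m → ℕ
  | .inl (_, t) => if t = Fin.last m then m else 0
  | .inr _ => 0

theorem f_top {m : ℕ} (i : Fin m) : f m (top i) = m := by simp [f, top]

theorem eq_top {m : ℕ} {v : Vert m} (h : 1 ≤ f m v) : ∃ i, v = top i := by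
  rcases v with ⟨i, t⟩ | s
  · simp only [f] at h
    split_ifs at h with h1
    · exact ⟨i, by rw [h1, top]⟩
    · omega
  · simp [f] at h

theorem dist_column {m : ℕ} (hm : 2 ≤ m) (i : Fin m) (k : ℕ) : ∀ t : Fin (m + 1), t.val + k = m →
    (G m).dist (.inl (i, t)) (top i) ≤ k := by
  induction k with
  | zero =>
    intro t ht
    have : t = Fin.last m := Fin.ext (by simpa using ht)
    rw [this, top, SimpleGraph.dist_self]
  | succ k ih =>
    intro t ht
    have h1 := ih ⟨t.val + 1, by omega⟩ (by simp only; omega)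
    have hadj : (G m).Adj (.inl (i, t)) (.inl (i, ⟨t.val + 1, by omega⟩)) :=
      Or.inr ⟨rfl, Or.inl rfl⟩
    have h2 := (connected hm).dist_triangle (u := (.inl (i, t) : Vert m))
      (v := .inl (i, ⟨t.val + 1, by omega⟩)) (w := top i)
    rw [SimpleGraph.dist_eq_one_iff_adj.2 hadj] at h2
    omega

/-- the level function -/
def level {m : ℕ} : Vert m → ℕ
  | .inl (_, t) => t.val
  | .inr s => s.val + 1

/-- the level function shifted away from column `j` -/
def level' {m : ℕ} (j : Fin m) : Vert m → ℕ
  | .inl (i, t) => if i = j then t.val else t.val + 1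
  | .inr s => s.val + 2

theorem level_lip {m : ℕ} (u v : Vert m) (h : (G m).Adj u v) : level v ≤ level u + 1 := by
  rcases u with ⟨i, t⟩ | s <;> rcases v with ⟨j, s'⟩ | s'
  · rcases h with ⟨_, h2⟩ | ⟨_, h2⟩
    · subst h2; simp [level]
    · simp only [level]; omega
  · have h' : t.val = s'.val + 1 := h
    simp only [level]; omega
  · have h' : s'.val = s.val + 1 := h
    simp only [level]; omega
  · exact absurd h id

theorem level'_lip {m : ℕ} (j : Fin m) (u v : Vert m) (h : (G m).Adj u v) :
    level' j v ≤ level' j u + 1 := by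
  rcases u with ⟨i, t⟩ | s <;> rcases v with ⟨i', s'⟩ | s'
  · rcases h with ⟨_, h2⟩ | ⟨h1, h2⟩
    · subst h2
      simp only [level']
      split_ifs <;> omega
    · subst h1
      simp only [level']
      split_ifs <;> omega
  · have h' : t.val = s'.val + 1 := h
    simp only [level']; split_ifs <;> omega
  · have h' : s'.val = s.val + 1 := h
    simp only [level']; split_ifs <;> omega
  · exact absurd h id

theorem dist_same {m : ℕ} (hm : 2 ≤ m) (i : Fin m) :
    m ≤ (G m).dist (.inl (i, 0)) (top i) := by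
  have := lipschitz (connected hm) level level_lip (.inl (i, 0)) (top i)
  simpa [level, top] using this

theorem dist_other {m : ℕ} (hm : 2 ≤ m) (i j : Fin m) (hij : j ≠ i) :
    m + 1 ≤ (G m).dist (.inl (i, 0)) (top j) := by
  have := lipschitz (connected hm) (level' i) (level'_lip i) (.inl (i, 0)) (top j)
  simpa [level', top, hij] using this

theorem f_min {m : ℕ} (hm : 2 ≤ m) : MinimalDominating (G m) (f m) := by
  refine ⟨?_, ?_, ?_⟩
  · intro v
    by_cases h : 1 ≤ f m v
    · obtain ⟨i, rfl⟩ := eq_top h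
      rw [f_top]
      calc m ≤ (G m).dist (.inl (i, 0)) (top i) := dist_same hm i
        _ = (G m).dist (top i) (.inl (i, 0)) := SimpleGraph.dist_comm
        _ ≤ ecc (G m) (top i) := Finset.le_sup (f := fun u => (G m).dist (top i) u) (Finset.mem_univ _)
    · omega
  · rintro (⟨i, t⟩ | s)
    · refine ⟨top i, by rw [f_top]; omega, ?_⟩
      rw [f_top]
      exact (dist_column hm i (m - t.val) t (by omega)).trans (by omega)
    · refine ⟨top ⟨0, by omega⟩, by rw [f_top]; omega, ?_⟩
      rw [f_top]
      have h1 := dist_column hm ⟨0, by omega⟩ (m - (s.val + 1)) s.succ (by simp only [Fin.val_succ]; omega)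
      have hadj : (G m).Adj (.inr s) (.inl (⟨0, by omega⟩, s.succ)) := by
        change (s.succ : Fin (m + 1)).val = s.val + 1
        simp
      have h2 := (connected hm).dist_triangle (u := (.inr s : Vert m))
        (v := .inl (⟨0, by omega⟩, s.succ)) (w := top ⟨0, by omega⟩)
      rw [SimpleGraph.dist_eq_one_iff_adj.2 hadj] at h2
      omega
  · intro g _ hgd hgf
    by_contra hne
    obtain ⟨v, hv⟩ := Function.ne_iff.1 hne
    have hlt : g v < f m v := lt_of_le_of_ne (hgf v) hv
    obtain ⟨i, rfl⟩ := eq_top (show 1 ≤ f m v by omega)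
    obtain ⟨v', h1, h2⟩ := hgd (.inl (i, 0))
    obtain ⟨j, rfl⟩ := eq_top (h1.trans (hgf v'))
    by_cases hij : j = i
    · subst hij
      have := dist_same hm j
      rw [f_top] at hlt
      omega
    · have := dist_other hm i j hij
      have h3 := hgf (top j)
      rw [f_top] at h3
      omega

theorem f_cost (m : ℕ) : ∑ v, f m v = m * m := by
  rw [Fintype.sum_sum_type, Fintype.sum_prod_type]
  simp [f]

theorem upperBroadcast_ge {m : ℕ} (hm : 2 ≤ m) : m * m ≤ upperBroadcast (G m) := by
  apply le_csSup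
  · refine ⟨∑ v, ecc (G m) v, ?_⟩
    rintro c ⟨g, hg, rfl⟩
    exact Finset.sum_le_sum fun v _ => hg.1 v
  · exact ⟨f m, f_min hm, f_cost m⟩

/-- the cell of a vertex: `inl i` for the bottom vertices, `inr t` for layer `t + 1` and `w t` -/
def cell {m : ℕ} : Vert m → Fin m ⊕ Fin m
  | .inl (i, t) => if h : t.val = 0 then .inl i else .inr ⟨t.val - 1, by omega⟩
  | .inr s => .inr s

theorem adj_of_cell {m : ℕ} {s : Fin m} {u v : Vert m} (hu : u = .inr s ∨ (G m).Adj (.inr s) u)
    (hv : cell v = .inr s) : v = u ∨ (G m).Adj v u := by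
  have hu' : u = .inr s ∨ ∃ i t, u = .inl (i, t) ∧ t.val = s.val + 1 := by
    rcases hu with hu | hu
    · exact Or.inl hu
    · rcases u with ⟨i, t⟩ | s'
      · exact Or.inr ⟨i, t, rfl, hu⟩
      · exact absurd hu id
  have hv' : v = .inr s ∨ ∃ i t, v = .inl (i, t) ∧ t.val = s.val + 1 := by
    rcases v with ⟨i, t⟩ | s'
    · right
      simp only [cell] at hv
      split_ifs at hv with h
      have h2 := Sum.inr.inj hv
      refine ⟨i, t, rfl, ?_⟩
      rw [← h2]
      simp only
      omega
    · left
      simp only [cell] at hv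
      rw [Sum.inr.inj hv]
  rcases hu' with rfl | ⟨i, t, rfl, ht⟩ <;> rcases hv' with rfl | ⟨j, t', rfl, ht'⟩
  · exact Or.inl rfl
  · exact Or.inr ht'
  · exact Or.inr ht
  · have htt : t' = t := Fin.ext (by omega)
    subst htt
    by_cases hij : j = i
    · left; rw [hij]
    · right; exact Or.inl ⟨hij, rfl⟩

theorem card_le {m : ℕ} (S : Finset (Vert m)) (hS : DominatingSet (G m) S)
    (hmin : ∀ T, T ⊂ S → ¬ DominatingSet (G m) T) : S.card ≤ 2 * m := by
  classical
  -- private neighbours
  have hpn : ∀ s ∈ S, ∃ p : Vert m, (p = s ∨ (G m).Adj p s) ∧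
      ∀ s' ∈ S, (p = s' ∨ (G m).Adj p s') → s' = s := by
    intro s hs
    have h1 := hmin (S.erase s) (Finset.erase_ssubset hs)
    unfold DominatingSet at h1
    push Not at h1
    obtain ⟨p, hp⟩ := h1
    obtain ⟨s0, hs0, hp0⟩ := hS p
    have huniq : ∀ s' ∈ S, (p = s' ∨ (G m).Adj p s') → s' = s := by
      intro s' hs' h
      by_contra hne
      have h2 := hp s' (Finset.mem_erase.2 ⟨hne, hs'⟩)
      rcases h with h | h
      · exact h2.1 h
      · exact h2.2 h
    have := huniq s0 hs0 hp0
    subst this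
    exact ⟨p, hp0, huniq⟩
  choose! p hp1 hp2 using hpn
  have hinj : ∀ s ∈ S, ∀ s' ∈ S, cell (p s) = cell (p s') → s = s' := by
    intro s hs s' hs' hcell
    rcases hc : cell (p s) with i | t
    · -- bottom vertices
      have hbot : ∀ v : Vert m, cell v = .inl i → v = .inl (i, 0) := by
        rintro (⟨j, t⟩ | t) hv
        · simp only [cell] at hv
          split_ifs at hv with h
          rw [Sum.inl.inj hv, Fin.ext (a := t) (b := 0) (by simpa using h)]
        · simp [cell] at hv
      have e1 := hbot _ hc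
      have e2 := hbot _ (hcell ▸ hc)
      have e3 : p s = p s' := by rw [e1, e2]
      have := hp2 s' hs' s hs (by rw [← e3]; exact hp1 s hs)
      exact this
    · obtain ⟨y, hy, hyd⟩ := hS (.inr t)
      have hyd' : y = .inr t ∨ (G m).Adj (.inr t) y := by
        rcases hyd with h | h
        · exact Or.inl h.symm
        · exact Or.inr h
      have h1 := hp2 s hs y hy (adj_of_cell hyd' hc)
      have h2 := hp2 s' hs' y hy (adj_of_cell hyd' (hcell ▸ hc))
      rw [← h1, h2]
  have hcard : S.card ≤ Fintype.card (Fin m ⊕ Fin m) := by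
    rw [← Finset.card_univ]
    exact Finset.card_le_card_of_injOn (fun s => cell (p s)) (fun _ _ => Finset.mem_univ _)
      (fun s hs s' hs' h => hinj s hs s' hs' h)
  simpa [two_mul] using hcard

theorem upperDomination_le {m : ℕ} : upperDomination (G m) ≤ 2 * m := by
  apply csSup_le'
  rintro c ⟨S, hS, hmin, rfl⟩
  exact card_le S hS hmin

/-- For every real `M` there is a connected graph with at least two vertices whose upper domination number
is positive and with `Γ_b(G) / Γ(G) > M`: the supremum `ρ` of the problem is infinite. -/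
theorem result : ∀ M : ℝ, ∃ (V : Type) (_ : Fintype V) (_ : DecidableEq V) (H : SimpleGraph V),
    H.Connected ∧ 2 ≤ Fintype.card V ∧ 0 < upperDomination H ∧
      M < (upperBroadcast H : ℝ) / (upperDomination H : ℝ) := by
  intro M
  obtain ⟨k, hk⟩ := exists_nat_gt (2 * M)
  set m := k + 2 with hm
  have hm2 : 2 ≤ m := by omega
  have hpos : 0 < upperDomination (G m) := by
    -- the set of all vertices contains a minimal dominating set, which is nonempty
    classical
    have hne : {S : Finset (Vert m) | DominatingSet (G m) S}.Nonempty :=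
      ⟨Finset.univ, fun u => ⟨u, Finset.mem_univ _, Or.inl rfl⟩⟩
    obtain ⟨S, hS⟩ := Set.Finite.exists_minimal (Set.toFinite _) hne
    have hSd : DominatingSet (G m) S := hS.prop
    have hSmin : ∀ T, T ⊂ S → ¬ DominatingSet (G m) T := fun T hT hTd =>
      hT.2 (hS.le_of_le hTd hT.1)
    have hcard : 0 < S.card := by
      rw [Finset.card_pos]
      obtain ⟨s, hs, _⟩ := hSd (.inr ⟨0, by omega⟩)
      exact ⟨s, hs⟩
    refine lt_of_lt_of_le hcard (le_csSup ?_ ⟨S, hSd, hSmin, rfl⟩)
    refine ⟨2 * m, ?_⟩
    rintro c ⟨T, hT, hT', rfl⟩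
    exact card_le T hT hT'
  refine ⟨Vert m, inferInstance, inferInstance, G m, connected hm2, ?_, hpos, ?_⟩
  · rw [Fintype.card_sum, Fintype.card_prod, Fintype.card_fin, Fintype.card_fin]
    nlinarith
  · have hposR : (0 : ℝ) < upperDomination (G m) := by exact_mod_cast hpos
    rw [lt_div_iff₀ hposR]
    have h1 : (upperDomination (G m) : ℝ) ≤ 2 * m := by exact_mod_cast upperDomination_le
    have h2 : (m : ℝ) * m ≤ upperBroadcast (G m) := by exact_mod_cast upperBroadcast_ge hm2
    have h3 : (2 * M : ℝ) < m := by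
      have : (k : ℝ) < m := by rw [hm]; push_cast; linarith
      linarith
    have h4 : (0 : ℝ) < m := by
      have : 0 < m := by omega
      exact_mod_cast this
    rcases le_or_gt M 0 with hM | hM
    · calc M * (upperDomination (G m) : ℝ) ≤ 0 := mul_nonpos_of_nonpos_of_nonneg hM hposR.le
        _ < (m : ℝ) * m := by positivity
        _ ≤ _ := h2
    · calc M * (upperDomination (G m) : ℝ) ≤ M * (2 * m) := mul_le_mul_of_nonneg_left h1 hM.le
        _ = (2 * M) * m := by ring
        _ < (m : ℝ) * m := mul_lt_mul_of_pos_right h3 h4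
        _ ≤ _ := h2

end Pool.Agent.Results.MP_9b093e_co.RatioUnbounded
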